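import Mathlib
import Pool.Agent.X296.FiniteOrbit

/-!
# There need not be a maximal geometrically nilpotent subvariety

Let `F` be any finite field of characteristic `p` and let
`T(x, z, w) = (z (x - w) x z, z (x - w) z w, z (x - w) w²)` on affine `3`-space. Then for every
geometrically nilpotent subvariety `Y` there is a geometrically nilpotent subvariety `Z` (the surface
`z w^(q-1) = x^q` for a large power `q` of `p`) which lies in `T^(-k)(T^m(Y))` for no `k, m`.

Idea: in the coordinates `X = x / w`, `Z = z / w` the map is `(X, Z) ↦ (X Z, Z)`, and the points with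
`X = 1` are sent to the origin. On the surface `Z = X ^ q` the points move along `X ^ (1 + n q)`,
which is `1` for some `n`, as `X` is a root of unity of order prime to `q`. The orbits of the curves
`Z = X ^ q` under `(X, Z) ↦ (X Z, Z)` are pairwise disjoint for different `q`.
-/

set_option autoImplicit false

namespace Pool.Agent.Results.MP_b41bf9_ag.NoMaximal

open MvPolynomial Pool.Agent.X296

universe u

variable {F : Type u} [Field F] {n : ℕ}

/-- `Y` is the set of geometric points of a closed subvariety of affine space defined over `F`. -/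
def IsSubvariety (Y : Set (Fin n → AlgebraicClosure F)) : Prop :=
  ∃ S : Set (MvPolynomial (Fin n) F), Y = {x | ∀ f ∈ S, aeval x f = 0}

/-- `Y` is Zariski closed over the algebraic closure of `F`. -/
def IsGeometricallyClosed (Y : Set (Fin n → AlgebraicClosure F)) : Prop :=
  ∃ S : Set (MvPolynomial (Fin n) (AlgebraicClosure F)), Y = {x | ∀ f ∈ S, eval x f = 0}

/-- `Y` is geometrically irreducible: it is nonempty, and if the product of two polynomials over the
algebraic closure vanishes on `Y` then one of them does (the ideal of `Y` is prime). -/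
def GeometricallyIrreducible (Y : Set (Fin n → AlgebraicClosure F)) : Prop :=
  Y.Nonempty ∧ ∀ p q : MvPolynomial (Fin n) (AlgebraicClosure F),
    (∀ x ∈ Y, eval x p * eval x q = 0) → (∀ x ∈ Y, eval x p = 0) ∨ (∀ x ∈ Y, eval x q = 0)

/-- `C` is an irreducible component of `Y` (over the algebraic closure of `F`): a maximal closed
irreducible subset. -/
def IsComponent (C Y : Set (Fin n → AlgebraicClosure F)) : Prop :=
  IsGeometricallyClosed C ∧ GeometricallyIrreducible C ∧ C ⊆ Y ∧
    ∀ C', IsGeometricallyClosed C' → GeometricallyIrreducible C' → C' ⊆ Y → C ⊆ C' → C' = C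

/-- There is one fixed point of `T` to which every geometric point of `C` is sent by an iterate. -/
def Converges (T : Fin n → MvPolynomial (Fin n) F) (C : Set (Fin n → AlgebraicClosure F)) : Prop :=
  ∃ P, act T P = P ∧ ∀ y ∈ C, ∃ k, 1 ≤ k ∧ (act T)^[k] y = P

/-- `Y` is geometrically nilpotent: every irreducible component of `Y` converges to one fixed point
of `T`, which may depend on the component. (The empty set is geometrically nilpotent.) -/
def GeometricallyNilpotent (T : Fin n → MvPolynomial (Fin n) F)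
    (Y : Set (Fin n → AlgebraicClosure F)) : Prop :=
  ∀ C, IsComponent C Y → Converges T C

/-- The map `T(x, z, w) = z (x - w) (x z, z w, w²)`. -/
noncomputable def T (F : Type u) [Field F] : Fin 3 → MvPolynomial (Fin 3) F :=
  ![X 1 * (X 0 - X 2) * (X 0 * X 1), X 1 * (X 0 - X 2) * (X 1 * X 2), X 1 * (X 0 - X 2) * X 2 ^ 2]

section Action

variable (F)

lemma act_T (v : Fin 3 → AlgebraicClosure F) :
    act (T F) v = ![v 1 * (v 0 - v 2) * (v 0 * v 1), v 1 * (v 0 - v 2) * (v 1 * v 2),
      v 1 * (v 0 - v 2) * v 2 ^ 2] := by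
  funext i
  fin_cases i <;> simp [act, T]

lemma act_zero : act (T F) 0 = 0 := by
  rw [act_T]
  funext i
  fin_cases i <;> simp

variable {F}

/-- The last coordinate of the iterates of `(w X, w Z, w)`. -/
noncomputable def W (x z w : AlgebraicClosure F) : ℕ → AlgebraicClosure F
  | 0 => w
  | k + 1 => (W x z w k) ^ 4 * z * (x * z ^ k - 1)

/-- The factor of the last coordinate that depends on `X`, `Z`. -/
noncomputable def H (x z : AlgebraicClosure F) : ℕ → AlgebraicClosure F
  | 0 => 1
  | k + 1 => (H x z k) ^ 4 * z * (x * z ^ k - 1)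

lemma W_eq (x z w : AlgebraicClosure F) (k : ℕ) : W x z w k = w ^ 4 ^ k * H x z k := by
  induction k with
  | zero => simp [W, H]
  | succ k ih =>
    simp only [W, H]
    rw [ih]
    ring

lemma H_ne {x z : AlgebraicClosure F} {k : ℕ} (hz : z ≠ 0) (h : ∀ j < k, x * z ^ j ≠ 1) :
    H x z k ≠ 0 := by
  induction k with
  | zero => simp [H]
  | succ k ih =>
    simp only [H]
    refine mul_ne_zero (mul_ne_zero (pow_ne_zero 4 (ih fun j hj => h j (by omega))) hz) ?_
    exact sub_ne_zero.2 (h k (by omega))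

lemma iterate_eq (x z w : AlgebraicClosure F) (k : ℕ) :
    (act (T F))^[k] ![w * x, w * z, w] =
      ![W x z w k * (x * z ^ k), W x z w k * z, W x z w k] := by
  induction k with
  | zero => simp [W]
  | succ k ih =>
    rw [Function.iterate_succ_apply', ih, act_T]
    funext i
    fin_cases i
    · simp only [W, Matrix.cons_val_zero, Matrix.cons_val_one, Matrix.cons_val, Fin.zero_eta]
      ring
    · simp only [W, Matrix.cons_val_zero, Matrix.cons_val_one, Matrix.cons_val, Fin.mk_one]
      ring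
    · simp only [W, Matrix.cons_val_zero, Matrix.cons_val_one, Matrix.cons_val,
        Fin.reduceFinMk]
      ring

lemma iterate_last {v : Fin 3 → AlgebraicClosure F} (hv : v 2 = 0) (k : ℕ) :
    (act (T F))^[k] v 2 = 0 := by
  induction k with
  | zero => exact hv
  | succ k ih =>
    rw [Function.iterate_succ_apply', act_T]
    simp [ih]

lemma eq_vec {v : Fin 3 → AlgebraicClosure F} (hv : v 2 ≠ 0) :
    v = ![v 2 * (v 0 / v 2), v 2 * (v 1 / v 2), v 2] := by
  funext i
  fin_cases i
  · exact (mul_div_cancel₀ _ hv).symm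
  · exact (mul_div_cancel₀ _ hv).symm
  · rfl

end Action

section Surface

/-- The surface `z w^(q-1) = x^q`. -/
def Zq (F : Type u) [Field F] (q : ℕ) : Set (Fin 3 → AlgebraicClosure F) :=
  {v | v 1 * v 2 ^ (q - 1) = v 0 ^ q}

lemma isSubvariety_Zq (q : ℕ) : IsSubvariety (Zq F q) := by
  refine ⟨{X 1 * X 2 ^ (q - 1) - X 0 ^ q}, ?_⟩
  ext v
  simp [Zq, sub_eq_zero]

lemma Zq_eq_range {q : ℕ} (hq : 2 ≤ q) :
    Zq F q = Set.range fun t : AlgebraicClosure F × AlgebraicClosure F =>
      (![t.1 * t.2 ^ (q - 1), t.1 ^ q, t.2 ^ q] : Fin 3 → AlgebraicClosure F) := by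
  obtain ⟨r, rfl⟩ : ∃ r, q = r + 2 := ⟨q - 2, by omega⟩
  ext v
  constructor
  · intro hv
    have hv' : v 1 * v 2 ^ (r + 1) = v 0 ^ (r + 2) := hv
    by_cases h : v 2 = 0
    · rw [h, zero_pow (by omega), mul_zero] at hv'
      have h0 : v 0 = 0 := pow_eq_zero_iff (by omega) |>.1 hv'.symm
      obtain ⟨a, ha⟩ := IsAlgClosed.exists_pow_nat_eq (v 1) (n := r + 2) (by omega)
      refine ⟨(a, 0), ?_⟩
      funext i
      fin_cases i
      · simp [h0]
      · exact ha
      · simp [h]
    · obtain ⟨b, hb⟩ := IsAlgClosed.exists_pow_nat_eq (v 2) (n := r + 2) (by omega)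
      have hb0 : b ≠ 0 := by
        rintro rfl
        rw [zero_pow (by omega)] at hb
        exact h hb.symm
      refine ⟨(v 0 / b ^ (r + 1), b), ?_⟩
      funext i
      fin_cases i
      · show v 0 / b ^ (r + 1) * b ^ (r + 2 - 1) = v 0
        exact div_mul_cancel₀ _ (pow_ne_zero _ hb0)
      · show (v 0 / b ^ (r + 1)) ^ (r + 2) = v 1
        rw [div_pow, ← hv', ← hb, ← pow_mul, ← pow_mul, mul_comm (r + 1) (r + 2),
          mul_div_cancel_right₀ _ (pow_ne_zero _ hb0)]
      · exact hb
  · rintro ⟨⟨a, b⟩, rfl⟩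
    show a ^ (r + 2) * (b ^ (r + 2)) ^ (r + 1) = (a * b ^ (r + 1)) ^ (r + 2)
    ring

lemma irreducible_Zq {q : ℕ} (hq : 2 ≤ q) : GeometricallyIrreducible (Zq F q) := by
  refine ⟨⟨0, ?_⟩, ?_⟩
  · show (0 : AlgebraicClosure F) * 0 ^ (q - 1) = 0 ^ q
    rw [zero_mul, zero_pow (by omega)]
  intro p₁ p₂ h
  have hinf : Infinite (AlgebraicClosure F) := inferInstance
  let φ : MvPolynomial (Fin 3) (AlgebraicClosure F) →ₐ[AlgebraicClosure F]
      MvPolynomial (Fin 2) (AlgebraicClosure F) :=
    aeval ![X 0 * X 1 ^ (q - 1), X 0 ^ q, X 1 ^ q]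
  have hφ : ∀ (s : Fin 2 → AlgebraicClosure F) (f), eval s (φ f) =
      eval ![s 0 * s 1 ^ (q - 1), s 0 ^ q, s 1 ^ q] f := by
    intro s f
    have h1 : eval s (φ f) = ((aeval s).comp φ) f := by
      rw [AlgHom.comp_apply, ← MvPolynomial.coe_aeval_eq_eval]
      rfl
    rw [h1]
    have h2 : (aeval s).comp φ = aeval ![s 0 * s 1 ^ (q - 1), s 0 ^ q, s 1 ^ q] := by
      apply MvPolynomial.algHom_ext
      intro i
      fin_cases i <;> simp [φ]
    rw [h2, ← MvPolynomial.coe_aeval_eq_eval]
    rfl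
  have hzero : φ p₁ * φ p₂ = 0 := by
    apply MvPolynomial.funext
    intro s
    rw [map_mul, hφ, hφ, map_zero]
    apply h
    rw [Zq_eq_range hq]
    exact ⟨(s 0, s 1), rfl⟩
  have key : ∀ f, φ f = 0 → ∀ x ∈ Zq F q, eval x f = 0 := by
    intro f hf x hx
    rw [Zq_eq_range hq] at hx
    obtain ⟨⟨a, b⟩, rfl⟩ := hx
    have := hφ ![a, b] f
    rw [hf, map_zero] at this
    exact this.symm
  rcases mul_eq_zero.1 hzero with h1 | h1
  · exact Or.inl (key p₁ h1)
  · exact Or.inr (key p₂ h1)

/-- Every element of the algebraic closure of a finite field is fixed by a power of Frobenius. -/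
lemma exists_frobenius [Finite F] (p : ℕ) [CharP F p] (x : AlgebraicClosure F) :
    ∃ e, 1 ≤ e ∧ x ^ p ^ e = x := by
  classical
  let E : IntermediateField F (AlgebraicClosure F) := IntermediateField.adjoin F {x}
  have h1 : FiniteDimensional F E := IntermediateField.finiteDimensional_adjoin
    (fun y _ => Algebra.IsIntegral.isIntegral y)
  have h2 : Finite E := Module.finite_of_finite F
  have h3 : Fintype E := Fintype.ofFinite E
  have h4 : CharP E p := charP_of_injective_algebraMap (algebraMap F E).injective p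
  obtain ⟨e, -, he⟩ := FiniteField.card E p
  refine ⟨e, e.pos, ?_⟩
  have h5 : (⟨x, IntermediateField.mem_adjoin_simple_self F x⟩ : E) ^ Fintype.card E = _ :=
    FiniteField.pow_card _
  have h6 := congrArg (fun y : E => (y : AlgebraicClosure F)) h5
  rw [he] at h6
  exact h6

lemma exists_one [Finite F] (p : ℕ) [CharP F p] {x : AlgebraicClosure F} (hx : x ≠ 0) {i : ℕ}
    (hq : 2 ≤ p ^ i) : ∃ k, x * (x ^ p ^ i) ^ k = 1 := by
  obtain ⟨e, he, hx2⟩ := exists_frobenius p x
  set q := p ^ i with hqdef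
  have h1 : ∀ j : ℕ, x ^ (p ^ e) ^ j = x := by
    intro j
    induction j with
    | zero => simp
    | succ j ih => rw [pow_succ, pow_mul, ih, hx2]
  have h2 : x ^ (q * q ^ (e - 1)) = x := by
    have h3 : q * q ^ (e - 1) = (p ^ e) ^ i := by
      rw [← pow_succ', Nat.sub_add_cancel he, hqdef, ← pow_mul, ← pow_mul, mul_comm]
    rw [h3]
    exact h1 i
  set r := q ^ (e - 1) with hr
  have hr1 : 1 ≤ r := Nat.one_le_pow _ _ (by omega)
  have hqr : r + 1 ≤ q * r := by nlinarith
  obtain ⟨M, hM⟩ : ∃ M, q * r = M + 1 := ⟨q * r - 1, by omega⟩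
  have h4 : x ^ M = 1 := by
    rw [hM, pow_succ] at h2
    exact mul_right_cancel₀ hx (by rw [h2, one_mul])
  obtain ⟨s, hs⟩ : ∃ s, q = s + 1 := ⟨q - 1, by omega⟩
  refine ⟨M - r, ?_⟩
  rw [← pow_mul, ← pow_succ']
  have h5 : q * (M - r) + 1 = M * s := by
    obtain ⟨t, ht⟩ : ∃ t, M = r + t := ⟨M - r, by omega⟩
    rw [ht, Nat.add_sub_cancel_left]
    rw [ht, hs] at hM
    rw [hs]
    nlinarith
  rw [h5, pow_mul, h4, one_pow]

lemma converges_Zq [Finite F] (p : ℕ) [CharP F p] {i : ℕ} (hq : 2 ≤ p ^ i) :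
    Converges (T F) (Zq F (p ^ i)) := by
  refine ⟨0, act_zero F, ?_⟩
  intro v hv
  have hv' : v 1 * v 2 ^ (p ^ i - 1) = v 0 ^ p ^ i := hv
  by_cases hw : v 2 = 0
  · refine ⟨1, le_rfl, ?_⟩
    rw [hw, zero_pow (by omega), mul_zero] at hv'
    have h0 : v 0 = 0 := pow_eq_zero_iff (by omega) |>.1 hv'.symm
    rw [Function.iterate_one, act_T]
    funext j
    fin_cases j <;> simp [h0, hw]
  by_cases hz : v 1 = 0
  · refine ⟨1, le_rfl, ?_⟩
    rw [Function.iterate_one, act_T]
    funext j
    fin_cases j <;> simp [hz]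
  have hx : v 0 ≠ 0 := by
    intro h0
    rw [h0, zero_pow (by omega)] at hv'
    exact mul_ne_zero hz (pow_ne_zero _ hw) hv'
  have hx2 : v 0 / v 2 ≠ 0 := div_ne_zero hx hw
  have hzx : v 1 / v 2 = (v 0 / v 2) ^ p ^ i := by
    rw [div_pow, ← hv']
    obtain ⟨s, hs⟩ : ∃ s, p ^ i = s + 1 := ⟨p ^ i - 1, by omega⟩
    rw [hs, Nat.add_sub_cancel, pow_succ]
    field_simp
  obtain ⟨k, hk⟩ := exists_one p hx2 hq
  refine ⟨k + 1, Nat.succ_pos k, ?_⟩
  rw [eq_vec hw, iterate_eq]
  have hW : W (v 0 / v 2) (v 1 / v 2) (v 2) (k + 1) = 0 := by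
    show _ * (v 0 / v 2 * (v 1 / v 2) ^ k - 1) = 0
    rw [hzx, hk, sub_self, mul_zero]
  rw [hW]
  funext j
  fin_cases j <;> simp

end Surface

section Main

lemma isComponent_univ : IsComponent (Set.univ : Set (Fin n → AlgebraicClosure F)) Set.univ := by
  have hinf : Infinite (AlgebraicClosure F) := inferInstance
  refine ⟨⟨∅, ?_⟩, ⟨Set.univ_nonempty, ?_⟩, Set.Subset.rfl, ?_⟩
  · ext v
    simp
  · intro p q h
    have hzero : p * q = 0 := by
      apply MvPolynomial.funext
      intro s
      rw [map_mul, map_zero]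
      exact h s (Set.mem_univ s)
    rcases mul_eq_zero.1 hzero with h1 | h1
    · left
      intro x _
      rw [h1, map_zero]
    · right
      intro x _
      rw [h1, map_zero]
  · intro C' _ _ _ h
    exact Set.eq_univ_of_univ_subset h

lemma not_univ : ¬ GeometricallyNilpotent (T F) Set.univ := by
  classical
  intro h
  obtain ⟨P, -, hP⟩ := h _ isComponent_univ
  have hinf : Infinite (AlgebraicClosure F) := inferInstance
  obtain ⟨k, -, hk⟩ := hP 0 (Set.mem_univ _)
  rw [Function.iterate_fixed (act_zero F)] at hk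
  obtain ⟨s, hs⟩ := Infinite.exists_notMem_finset ({0, 1} : Finset (AlgebraicClosure F))
  have hs1 : s ≠ 1 := by
    rintro rfl
    exact hs (by simp)
  obtain ⟨k, -, hk2⟩ := hP ![1 * s, 1 * 1, 1] (Set.mem_univ _)
  rw [iterate_eq, ← hk] at hk2
  have h2 : W s 1 1 k = 0 := congrFun hk2 2
  rw [W_eq, one_pow, one_mul] at h2
  refine H_ne one_ne_zero ?_ h2
  intro j _
  rw [one_pow, mul_one]
  exact hs1

/-- The exponents of the monomials after substitution are different. -/
lemma exponent_inj {q L k m : ℕ} (hL : q * (1 + k * q) + q * (q + m * q) + q * (m * q) < L)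
    {a b c a' b' c' : ℕ} (ha : a < q) (hb : b < q) (hc : c < q) (ha' : a' < q) (hb' : b' < q)
    (hc' : c' < q)
    (h : (L + (1 + k * q)) * a + (L + (q + m * q)) * b + (L + m * q) * c =
      (L + (1 + k * q)) * a' + (L + (q + m * q)) * b' + (L + m * q) * c') :
    a = a' ∧ b = b' ∧ c = c' := by
  have hB : ∀ x y z : ℕ, x < q → y < q → z < q →
      (1 + k * q) * x + (q + m * q) * y + (m * q) * z < L := by
    intro x y z hx hy hz
    have h1 : (1 + k * q) * x ≤ (1 + k * q) * q := Nat.mul_le_mul_left _ hx.le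
    have h2 : (q + m * q) * y ≤ (q + m * q) * q := Nat.mul_le_mul_left _ hy.le
    have h3 : (m * q) * z ≤ (m * q) * q := Nat.mul_le_mul_left _ hz.le
    nlinarith
  have h1 : (1 + k * q) * a + (q + m * q) * b + (m * q) * c + L * (a + b + c) =
      (1 + k * q) * a' + (q + m * q) * b' + (m * q) * c' + L * (a' + b' + c') := by
    nlinarith
  have h2 : (1 + k * q) * a + (q + m * q) * b + (m * q) * c =
      (1 + k * q) * a' + (q + m * q) * b' + (m * q) * c' := by
    have := congrArg (· % L) h1
    simp only [Nat.add_mul_mod_self_left] at this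
    rwa [Nat.mod_eq_of_lt (hB a b c ha hb hc), Nat.mod_eq_of_lt (hB a' b' c' ha' hb' hc')] at this
  have hLpos : 0 < L := by omega
  have h3 : a + b + c = a' + b' + c' := by
    rw [h2] at h1
    exact Nat.eq_of_mul_eq_mul_left hLpos (Nat.add_left_cancel h1)
  have h4 : a = a' := by
    have e1 : (1 + k * q) * a + (q + m * q) * b + (m * q) * c =
        a + q * (k * a + (1 + m) * b + m * c) := by ring
    have e2 : (1 + k * q) * a' + (q + m * q) * b' + (m * q) * c' =
        a' + q * (k * a' + (1 + m) * b' + m * c') := by ring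
    rw [e1, e2] at h2
    have := congrArg (· % q) h2
    simp only [Nat.add_mul_mod_self_left] at this
    rwa [Nat.mod_eq_of_lt ha, Nat.mod_eq_of_lt ha'] at this
  subst h4
  have h5 : b + c = b' + c' := by omega
  have h6 : b = b' := by
    have e1 : (1 + k * q) * a + (q + m * q) * b + (m * q) * c =
        (1 + k * q) * a + (m * q) * (b + c) + q * b := by ring
    have e2 : (1 + k * q) * a + (q + m * q) * b' + (m * q) * c' =
        (1 + k * q) * a + (m * q) * (b' + c') + q * b' := by ring
    rw [e1, e2, h5] at h2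
    exact Nat.eq_of_mul_eq_mul_left (by omega) (Nat.add_left_cancel h2)
  exact ⟨rfl, h6, by omega⟩

/-- The substitution used in the proof. -/
noncomputable def sub (F : Type u) [Field F] (A B C : ℕ) :
    MvPolynomial (Fin 3) (AlgebraicClosure F) →ₐ[AlgebraicClosure F]
      Polynomial (AlgebraicClosure F) :=
  aeval ![Polynomial.X ^ A, Polynomial.X ^ B, Polynomial.X ^ C]

lemma eval_sub' (A B C : ℕ) (g : MvPolynomial (Fin 3) (AlgebraicClosure F))
    (a : AlgebraicClosure F) : (sub F A B C g).eval a = eval ![a ^ A, a ^ B, a ^ C] g := by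
  have h1 : (sub F A B C g).eval a = ((Polynomial.aeval a).comp (sub F A B C)) g := by
    rw [AlgHom.comp_apply, Polynomial.coe_aeval_eq_eval]
  rw [h1]
  have h2 : (Polynomial.aeval a).comp (sub F A B C) = aeval ![a ^ A, a ^ B, a ^ C] := by
    apply MvPolynomial.algHom_ext
    intro i
    fin_cases i <;> simp [sub]
  rw [h2, ← MvPolynomial.coe_aeval_eq_eval]
  rfl

lemma sub_ne {q L k m : ℕ} (hL : q * (1 + k * q) + q * (q + m * q) + q * (m * q) < L)
    {g : MvPolynomial (Fin 3) (AlgebraicClosure F)} (hg : g ≠ 0) (hq : g.totalDegree < q) :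
    sub F (L + (1 + k * q)) (L + (q + m * q)) (L + m * q) g ≠ 0 := by
  classical
  obtain ⟨e₀, he₀⟩ := MvPolynomial.ne_zero_iff.1 hg
  set A := L + (1 + k * q)
  set B := L + (q + m * q)
  set C' := L + m * q
  have hexp : ∀ e ∈ g.support, ∀ i, e i < q := by
    intro e he i
    refine lt_of_le_of_lt ?_ hq
    refine le_trans ?_ (MvPolynomial.le_totalDegree he)
    rw [Finsupp.sum_fintype _ _ (fun _ => rfl)]
    exact Finset.single_le_sum (f := fun j => e j) (fun _ _ => Nat.zero_le _) (Finset.mem_univ i)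
  have hsum : sub F A B C' g = ∑ e ∈ g.support,
      Polynomial.C (coeff e g) * Polynomial.X ^ (A * e 0 + B * e 1 + C' * e 2) := by
    unfold sub
    rw [MvPolynomial.aeval_def, MvPolynomial.eval₂_eq']
    refine Finset.sum_congr rfl fun e _ => ?_
    rw [Fin.prod_univ_three]
    simp only [Matrix.cons_val_zero, Matrix.cons_val_one, Matrix.cons_val]
    rw [← pow_mul, ← pow_mul, ← pow_mul, ← pow_add, ← pow_add]
    rfl
  intro h0
  have h1 := congrArg (fun P => P.coeff (A * e₀ 0 + B * e₀ 1 + C' * e₀ 2)) h0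
  simp only [hsum, Polynomial.finsetSum_coeff, Polynomial.coeff_C_mul, Polynomial.coeff_X_pow,
    Polynomial.coeff_zero] at h1
  have hmem : e₀ ∈ g.support := MvPolynomial.mem_support_iff.2 he₀
  rw [Finset.sum_eq_single e₀] at h1
  · rw [if_pos rfl, mul_one] at h1
    exact he₀ h1
  · intro e he hne
    rw [if_neg, mul_zero]
    intro h
    apply hne
    obtain ⟨x, y, z⟩ := exponent_inj hL (hexp e he 0) (hexp e he 1) (hexp e he 2) (hexp e₀ hmem 0)
      (hexp e₀ hmem 1) (hexp e₀ hmem 2) h.symm
    ext i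
    fin_cases i
    · exact x
    · exact y
    · exact z
  · intro h
    exact absurd hmem h

lemma not_subset [Finite F] {Y : Set (Fin 3 → AlgebraicClosure F)}
    {g : MvPolynomial (Fin 3) (AlgebraicClosure F)} (hg : g ≠ 0) (hgY : ∀ y ∈ Y, eval y g = 0)
    {q : ℕ} (hq : g.totalDegree < q) (hq2 : 2 ≤ q) (k m : ℕ) :
    ¬ Zq F q ⊆ (act (T F))^[k] ⁻¹' ((act (T F))^[m] '' Y) := by
  classical
  intro hsub
  have hinf : Infinite (AlgebraicClosure F) := inferInstance
  obtain ⟨L, hL⟩ : ∃ L, q * (1 + k * q) + q * (q + m * q) + q * (m * q) < L := ⟨_, Nat.lt_succ_self _⟩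
  have hP := sub_ne hL hg hq
  set P := sub F (L + (1 + k * q)) (L + (q + m * q)) (L + m * q) g with hPdef
  -- choose `a`
  let R : Polynomial (AlgebraicClosure F) :=
    P * Polynomial.X * ∏ j ∈ Finset.range k, (Polynomial.X ^ (1 + q * j) - 1)
  have hR : R ≠ 0 := by
    refine mul_ne_zero (mul_ne_zero hP Polynomial.X_ne_zero) ?_
    refine Finset.prod_ne_zero_iff.2 fun j _ => ?_
    exact (Polynomial.monic_X_pow_sub_C 1 (by omega)).ne_zero
  obtain ⟨a, ha⟩ := Infinite.exists_notMem_finset R.roots.toFinset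
  have ha2 : R.eval a ≠ 0 := by
    intro h
    apply ha
    rw [Multiset.mem_toFinset, Polynomial.mem_roots hR]
    exact h
  have ha3 : P.eval a * a * ∏ j ∈ Finset.range k, (a ^ (1 + q * j) - 1) ≠ 0 := by
    have : R.eval a = P.eval a * a * ∏ j ∈ Finset.range k, (a ^ (1 + q * j) - 1) := by
      simp only [R, Polynomial.eval_mul, Polynomial.eval_X, Polynomial.eval_prod,
        Polynomial.eval_sub, Polynomial.eval_pow, Polynomial.eval_one]
    rwa [this] at ha2
  have hPa : P.eval a ≠ 0 := fun h => ha3 (by rw [h, zero_mul, zero_mul])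
  have ha0 : a ≠ 0 := fun h => ha3 (by rw [h, mul_zero, zero_mul])
  have haj : ∀ j < k, a * (a ^ q) ^ j ≠ 1 := by
    intro j hj h
    apply ha3
    rw [Finset.prod_eq_zero (Finset.mem_range.2 hj), mul_zero]
    rw [← pow_mul, ← pow_succ'] at h
    rw [add_comm 1, h, sub_self]
  have hH := H_ne (pow_ne_zero q ha0) haj
  -- the points of the surface
  set ξ := a ^ (1 + q * k) / a ^ (q * m) with hξ
  have key : ∀ b : AlgebraicClosure F, b ≠ 0 → ∃ w : AlgebraicClosure F,
      w ^ 4 ^ m * H ξ (a ^ q) m = b ^ 4 ^ k * H a (a ^ q) k ∧ eval ![w * ξ, w * a ^ q, w] g = 0 := by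
    intro b hb
    have hmem : (![b * a, b * a ^ q, b] : Fin 3 → AlgebraicClosure F) ∈ Zq F q := by
      show b * a ^ q * b ^ (q - 1) = (b * a) ^ q
      obtain ⟨s, rfl⟩ : ∃ s, q = s + 1 := ⟨q - 1, by omega⟩
      rw [Nat.add_sub_cancel]
      ring
    obtain ⟨y, hyY, hy⟩ := hsub hmem
    rw [iterate_eq] at hy
    have hW : W a (a ^ q) b k ≠ 0 := by
      rw [W_eq]
      exact mul_ne_zero (pow_ne_zero _ hb) hH
    have hy2 : y 2 ≠ 0 := by
      intro h
      apply hW
      have h1 := congrFun hy 2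
      rw [iterate_last h] at h1
      exact h1.symm
    have hy3 := eq_vec hy2
    rw [hy3, iterate_eq] at hy
    have e2 : W (y 0 / y 2) (y 1 / y 2) (y 2) m = W a (a ^ q) b k := congrFun hy 2
    have e1 : W (y 0 / y 2) (y 1 / y 2) (y 2) m * (y 1 / y 2) = W a (a ^ q) b k * a ^ q :=
      congrFun hy 1
    have e0 : W (y 0 / y 2) (y 1 / y 2) (y 2) m * (y 0 / y 2 * (y 1 / y 2) ^ m) =
        W a (a ^ q) b k * (a * (a ^ q) ^ k) := congrFun hy 0
    rw [e2] at e1 e0
    have f1 : y 1 / y 2 = a ^ q := mul_left_cancel₀ hW e1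
    have f0 : y 0 / y 2 * (y 1 / y 2) ^ m = a * (a ^ q) ^ k := mul_left_cancel₀ hW e0
    have f2 : y 0 / y 2 = ξ := by
      rw [f1, ← pow_mul, ← pow_mul, ← pow_succ'] at f0
      rw [hξ, eq_div_iff (pow_ne_zero _ ha0), f0, add_comm]
    refine ⟨y 2, ?_, ?_⟩
    · rw [f1, f2, W_eq, W_eq] at e2
      exact e2
    · rw [← f2, ← f1, ← hy3]
      exact hgY y hyY
  -- the polynomial in `w`
  let ψ : MvPolynomial (Fin 3) (AlgebraicClosure F) →ₐ[AlgebraicClosure F]
      Polynomial (AlgebraicClosure F) :=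
    aeval ![Polynomial.X * Polynomial.C ξ, Polynomial.X * Polynomial.C (a ^ q), Polynomial.X]
  have hψ : ∀ w : AlgebraicClosure F, (ψ g).eval w = eval ![w * ξ, w * a ^ q, w] g := by
    intro w
    have h1 : (ψ g).eval w = ((Polynomial.aeval w).comp ψ) g := by
      rw [AlgHom.comp_apply, Polynomial.coe_aeval_eq_eval]
    rw [h1]
    have h2 : (Polynomial.aeval w).comp ψ = aeval ![w * ξ, w * a ^ q, w] := by
      apply MvPolynomial.algHom_ext
      intro i
      fin_cases i
      · simp [ψ, mul_comm ξ w]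
      · simp [ψ, mul_comm (a ^ q) w]
      · simp [ψ]
    rw [h2, ← MvPolynomial.coe_aeval_eq_eval]
    rfl
  have hψ0 : ψ g = 0 := by
    by_contra hne
    have hfin : ({b : AlgebraicClosure F | b ≠ 0}).Finite := by
      have hsub2 : {b : AlgebraicClosure F | b ≠ 0} ⊆ ⋃ w ∈ (ψ g).roots.toFinset,
          ((Polynomial.X ^ 4 ^ k * Polynomial.C (H a (a ^ q) k) -
            Polynomial.C (w ^ 4 ^ m * H ξ (a ^ q) m)).roots.toFinset : Set (AlgebraicClosure F)) := by
        intro b hb
        obtain ⟨w, hw1, hw2⟩ := key b hb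
        rw [Set.mem_iUnion₂]
        refine ⟨w, ?_, ?_⟩
        · rw [Multiset.mem_toFinset, Polynomial.mem_roots hne]
          exact (hψ w).trans hw2
        · rw [Finset.mem_coe, Multiset.mem_toFinset, Polynomial.mem_roots]
          · show Polynomial.eval b _ = 0
            rw [Polynomial.eval_sub, Polynomial.eval_mul, Polynomial.eval_pow, Polynomial.eval_X,
              Polynomial.eval_C, Polynomial.eval_C, hw1, sub_self]
          · intro h
            have h1 := congrArg (fun P => P.coeff (4 ^ k)) h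
            have h4 : 4 ^ k ≠ 0 := pow_ne_zero _ (by norm_num)
            simp only [Polynomial.coeff_sub, Polynomial.coeff_mul_C, Polynomial.coeff_X_pow,
              Polynomial.coeff_zero, Polynomial.coeff_C, if_neg h4, if_true, one_mul,
              sub_zero] at h1
            exact hH h1
      exact (Set.Finite.biUnion (Finset.finite_toSet _) fun w _ => Finset.finite_toSet _).subset
        hsub2
    have huniv : (Set.univ : Set (AlgebraicClosure F)).Finite := by
      refine (hfin.union (Set.finite_singleton 0)).subset ?_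
      intro b _
      by_cases hb : b = 0
      · exact Or.inr hb
      · exact Or.inl hb
    exact Set.infinite_univ huniv
  apply hPa
  rw [hPdef, eval_sub']
  have h1 := hψ (a ^ (L + m * q))
  rw [hψ0, Polynomial.eval_zero] at h1
  have e0 : a ^ (L + m * q) * ξ = a ^ (L + (1 + k * q)) := by
    rw [hξ, mul_div_assoc', div_eq_iff (pow_ne_zero _ ha0), ← pow_add, ← pow_add]
    congr 1
    ring
  have e1 : a ^ (L + m * q) * a ^ q = a ^ (L + (q + m * q)) := by
    rw [← pow_add]
    congr 1
    ring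
  rw [e0, e1] at h1
  exact h1.symm

/-- For every finite field `F` there is a polynomial self-map `T` of affine `3`-space over `F` such
that for every geometrically nilpotent subvariety `Y` there is a geometrically irreducible
subvariety `Z`, all of whose geometric points are sent to one and the same fixed point of `T` by
iterates of `T` (in particular `Z` is geometrically nilpotent), such that `Z` is contained in
`T^(-k)(T^m(Y))` for no `k, m`. -/
theorem result : ∀ (F : Type u) [Field F] [Finite F],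
    ∃ T : Fin 3 → MvPolynomial (Fin 3) F,
      T = ![X 1 * (X 0 - X 2) * (X 0 * X 1), X 1 * (X 0 - X 2) * (X 1 * X 2),
        X 1 * (X 0 - X 2) * X 2 ^ 2] ∧
      ∀ Y : Set (Fin 3 → AlgebraicClosure F), IsSubvariety Y → GeometricallyNilpotent T Y →
        ∃ Z : Set (Fin 3 → AlgebraicClosure F), IsSubvariety Z ∧ GeometricallyIrreducible Z ∧
          Converges T Z ∧ GeometricallyNilpotent T Z ∧
          ∀ k m : ℕ, ¬ Z ⊆ (act T)^[k] ⁻¹' ((act T)^[m] '' Y) := by
  intro F _ _
  refine ⟨T F, rfl, ?_⟩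
  rintro Y ⟨S, hS⟩ hY
  obtain ⟨v, hv⟩ : ∃ v, v ∉ Y := by
    by_contra hcon
    push Not at hcon
    have : Y = Set.univ := Set.eq_univ_of_forall hcon
    rw [this] at hY
    exact not_univ hY
  rw [hS] at hv
  obtain ⟨f, hfS, hf⟩ : ∃ f ∈ S, aeval v f ≠ 0 := by
    by_contra hcon
    push Not at hcon
    exact hv hcon
  set g : MvPolynomial (Fin 3) (AlgebraicClosure F) := map (algebraMap F (AlgebraicClosure F)) f
    with hgdef
  have hge : ∀ x, eval x g = aeval x f := by
    intro x
    rw [hgdef, MvPolynomial.eval_map, MvPolynomial.aeval_def]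
  have hg : g ≠ 0 := by
    intro h
    apply hf
    rw [← hge, h, map_zero]
  have hgY : ∀ y ∈ Y, eval y g = 0 := by
    intro y hy
    rw [hge]
    rw [hS] at hy
    exact hy f hfS
  obtain ⟨p, hp⟩ := CharP.exists F
  have hpp : p.Prime := by
    rcases CharP.char_is_prime_or_zero F p with h | h
    · exact h
    · subst h
      have : CharZero F := CharP.charP_to_charZero F
      exact absurd (inferInstance : Finite F) (not_finite_iff_infinite.2 inferInstance)
  set i := g.totalDegree + 1 with hi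
  have hq : g.totalDegree < p ^ i := lt_trans (Nat.lt_succ_self _) (Nat.lt_pow_self hpp.one_lt)
  have hq2 : 2 ≤ p ^ i := by
    calc 2 ≤ p := hpp.two_le
      _ = p ^ 1 := (pow_one p).symm
      _ ≤ p ^ i := Nat.pow_le_pow_right hpp.pos (by omega)
  have hc := converges_Zq p hq2 (F := F)
  refine ⟨Zq F (p ^ i), isSubvariety_Zq _, irreducible_Zq hq2, hc, ?_,
    fun k m => not_subset hg hgY hq hq2 k m⟩
  intro C hC
  obtain ⟨P, hP1, hP2⟩ := hc
  exact ⟨P, hP1, fun y hy => hP2 y (hC.2.2.1 hy)⟩

end Main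

end Pool.Agent.Results.MP_b41bf9_ag.NoMaximal
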